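import Pool.Agent.Work.MP_6f78fb_rk.Interface

/-! Block RG of MP_6f78fb_co: homogeneous elements of the associated graded ideal. -/

open scoped BigOperators TensorProduct
open Classical

noncomputable section

namespace Pool.RookLC.helper83

/-- polynomials of degree `< d` -/
def Low (n m d : ℕ) : AddSubmonoid (Poly n m) where
  carrier := {q | q = 0 ∨ q.totalDegree < d}
  zero_mem' := Or.inl rfl
  add_mem' := by
    rintro a b ha hb
    simp only [Set.mem_ofPred_eq] at ha hb ⊢
    rcases ha with rfl | ha
    · rwa [zero_add]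
    · rcases hb with rfl | hb
      · rw [add_zero]; exact Or.inr ha
      · exact Or.inr (lt_of_le_of_lt (MvPolynomial.totalDegree_add a b) (max_lt ha hb))

theorem mem_Low {n m d : ℕ} {q : Poly n m} : q ∈ Low n m d ↔ q = 0 ∨ q.totalDegree < d := Iff.rfl

theorem Low_mul {n m k e : ℕ} {a q : Poly n m} (ha : a.totalDegree ≤ k) (hq : q ∈ Low n m e) :
    a * q ∈ Low n m (k + e) := by
  rw [mem_Low] at hq ⊢
  rcases hq with rfl | hq
  · exact Or.inl (mul_zero a)
  · exact Or.inr (lt_of_le_of_lt (MvPolynomial.totalDegree_mul a q) (by omega))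

/-- leading forms of degree `e` of elements of `vanI Z` -/
def Jd {n m : ℕ} (Z : Set (Fin n × Fin m → ℂ)) (e : ℕ) : AddSubmonoid (Poly n m) where
  carrier := {h | ∃ q ∈ Low n m e, h + q ∈ vanI Z}
  zero_mem' := ⟨0, (Low n m e).zero_mem, by rw [add_zero]; exact (vanI Z).zero_mem⟩
  add_mem' := by
    rintro a b ⟨q, hq, h⟩ ⟨q', hq', h'⟩
    refine ⟨q + q', (Low n m e).add_mem hq hq', ?_⟩
    rw [add_add_add_comm]
    exact (vanI Z).add_mem h h'

theorem Jd_mul {n m : ℕ} {Z : Set (Fin n × Fin m → ℂ)} {k e : ℕ} {a h : Poly n m}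
    (ha : a.totalDegree ≤ k) (hh : h ∈ Jd Z e) : a * h ∈ Jd Z (k + e) := by
  obtain ⟨q, hq, hv⟩ := hh
  refine ⟨a * q, Low_mul ha hq, ?_⟩
  rw [← mul_add]
  exact (vanI Z).mul_mem_left a hv

theorem hc_low {n m : ℕ} (f : Poly n m) :
    ∃ q ∈ Low n m f.totalDegree, MvPolynomial.homogeneousComponent f.totalDegree f + q = f := by
  refine ⟨∑ i ∈ Finset.range f.totalDegree, MvPolynomial.homogeneousComponent i f, ?_, ?_⟩
  · refine AddSubmonoid.sum_mem _ (fun i hi => ?_)
    rw [mem_Low]
    by_cases h0 : MvPolynomial.homogeneousComponent i f = 0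
    · exact Or.inl h0
    · refine Or.inr ?_
      rw [(MvPolynomial.homogeneousComponent_isHomogeneous i f).totalDegree h0]
      exact Finset.mem_range.1 hi
  · conv_rhs => rw [← MvPolynomial.sum_homogeneousComponent f, Finset.sum_range_succ]
    rw [add_comm]

theorem hc_Jd {n m : ℕ} (Z : Set (Fin n × Fin m → ℂ)) (g : Poly n m) (hg : g ∈ grI Z) :
    ∀ e, MvPolynomial.homogeneousComponent e g ∈ Jd Z e := by
  unfold grI at hg
  induction hg using Submodule.span_induction with
  | mem x hx =>
    obtain ⟨f, hf, hf0, rfl⟩ := hx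
    intro e
    unfold topForm
    rw [MvPolynomial.homogeneousComponent_of_mem
      (MvPolynomial.homogeneousComponent_isHomogeneous f.totalDegree f)]
    split_ifs with h
    · subst h
      obtain ⟨q, hq, hq'⟩ := hc_low f
      exact ⟨q, hq, by rw [hq']; exact hf⟩
    · exact (Jd Z e).zero_mem
  | zero => intro e; rw [map_zero]; exact (Jd Z e).zero_mem
  | add x y _ _ hx hy => intro e; rw [map_add]; exact (Jd Z e).add_mem (hx e) (hy e)
  | smul a x _ hx =>
    intro e
    rw [smul_eq_mul]
    have e1 : MvPolynomial.homogeneousComponent e (a * x) =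
        MvPolynomial.homogeneousComponent e
          ((∑ i ∈ Finset.range (a.totalDegree + 1), MvPolynomial.homogeneousComponent i a) *
            ∑ i ∈ Finset.range (x.totalDegree + 1), MvPolynomial.homogeneousComponent i x) := by
      rw [MvPolynomial.sum_homogeneousComponent, MvPolynomial.sum_homogeneousComponent]
    rw [e1, Finset.sum_mul_sum, map_sum]
    refine AddSubmonoid.sum_mem _ (fun i _ => ?_)
    rw [map_sum]
    refine AddSubmonoid.sum_mem _ (fun j _ => ?_)
    have h1 := (MvPolynomial.homogeneousComponent_isHomogeneous i a).mul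
      (MvPolynomial.homogeneousComponent_isHomogeneous j x)
    rw [MvPolynomial.homogeneousComponent_of_mem h1]
    split_ifs with h
    · subst h
      exact Jd_mul (MvPolynomial.homogeneousComponent_isHomogeneous i a).totalDegree_le (hx j)
    · exact (Jd Z e).zero_mem

theorem stmt_RG : Stmt_RG := by
  intro n m Z d f hf
  constructor
  · intro h
    have h1 := hc_Jd Z f h d
    rw [MvPolynomial.homogeneousComponent_eq_self hf] at h1
    obtain ⟨q, hq, hv⟩ := h1
    exact ⟨q, hq, hv⟩
  · rintro ⟨q, hq, hv⟩
    by_cases h0 : f = 0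
    · rw [h0]; exact (grI Z).zero_mem
    · have hd := hf.totalDegree h0
      have h1 : (f + q).totalDegree = d ∧ MvPolynomial.homogeneousComponent d q = 0 := by
        rcases hq with rfl | hq
        · rw [add_zero, map_zero]; exact ⟨hd, rfl⟩
        · refine ⟨?_, MvPolynomial.homogeneousComponent_eq_zero d q hq⟩
          rw [MvPolynomial.totalDegree_add_eq_left_of_totalDegree_lt (by rw [hd]; exact hq), hd]
      have h2 : topForm (f + q) = f := by
        unfold topForm
        rw [h1.1, map_add, h1.2, add_zero, MvPolynomial.homogeneousComponent_eq_self hf]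
      have h3 : f + q ≠ 0 := by
        intro h
        rw [h] at h2
        unfold topForm at h2
        rw [map_zero] at h2
        exact h0 h2.symm
      exact Ideal.subset_span ⟨f + q, hv, h3, h2.symm⟩

end Pool.RookLC.helper83
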