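import Pool.Agent.Work.MP_6f78fb_rk.Interface

/-! Block THI of MP_6f78fb_co, preparations: evaluation at placements, alternating sums. -/

open scoped BigOperators TensorProduct
open Classical

noncomputable section

namespace Pool.RookLC.helper83

variable {n m : ℕ}

/-- value of the state `s` at the state `w` -/
def ev (s w : St m) : ℂ :=
  match s with
  | none => 1
  | some none => ∑ j : Fin m, if w = some (some j) then 1 else 0
  | some (some j) => if w = some (some j) then 1 else 0

theorem ev_none (w : St m) : ev none w = 1 := rfl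

theorem ev_mark_rook (j : Fin m) : ev (some none) (some (some j)) = 1 := by
  simp [ev]

theorem ev_mark_none : ev (some none : St m) none = 0 := by
  simp [ev]

theorem ev_rook (j : Fin m) (w : St m) :
    ev (some (some j)) w = if w = some (some j) then 1 else 0 := rfl

theorem eval_val (w : Cf n m) (a : Fin n) (s : St m) :
    MvPolynomial.eval (mat w) (val a s) = ev s (w a) := by
  rcases s with _ | _ | j
  · simp [val, ev]
  · simp [val, ev, mat]
  · simp [val, ev, mat]

theorem eval_mon (w α : Cf n m) :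
    MvPolynomial.eval (mat w) (mon α) = ∏ a, ev (α a) (w a) := by
  unfold mon
  rw [map_prod]
  exact Finset.prod_congr rfl (fun a _ => eval_val w a (α a))

theorem eval_Th (w : Cf n m) (g : Fn n m) :
    MvPolynomial.eval (mat w) (Th n m g) = ∑ α, g α * ∏ a, ev (α a) (w a) := by
  show MvPolynomial.eval (mat w) (∑ α, g α • mon α) = _
  rw [map_sum]
  refine Finset.sum_congr rfl (fun α _ => ?_)
  rw [MvPolynomial.smul_eval, eval_mon]

theorem val_homog (a : Fin n) (s : St m) :
    (val a s : Poly n m).IsHomogeneous (if s ≠ none then 1 else 0) := by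
  rcases s with _ | _ | j
  · simpa [val] using MvPolynomial.isHomogeneous_one _ _
  · have h : (∑ j : Fin m, (MvPolynomial.X (a, j) : Poly n m)).IsHomogeneous 1 :=
      MvPolynomial.IsHomogeneous.sum _ _ _ (fun j _ => MvPolynomial.isHomogeneous_X _ _)
    simpa [val] using h
  · simpa [val] using MvPolynomial.isHomogeneous_X ℂ (a, j)

theorem mon_homog (α : Cf n m) : (mon α).IsHomogeneous (dd α) := by
  unfold mon dd
  rw [Finset.card_filter]
  exact MvPolynomial.IsHomogeneous.prod _ _ _ (fun a _ => val_homog a (α a))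

theorem Th_homog (g : Fn n m) (d : ℕ) (h : ∀ α, g α ≠ 0 → dd α = d) :
    (Th n m g).IsHomogeneous d := by
  show (∑ α, g α • mon α : Poly n m).IsHomogeneous d
  refine MvPolynomial.IsHomogeneous.sum _ _ _ (fun α _ => ?_)
  by_cases h0 : g α = 0
  · rw [h0, zero_smul]
    exact MvPolynomial.isHomogeneous_zero _ _ _
  · rw [← h α h0, MvPolynomial.smul_eq_C_mul]
    exact (mon_homog α).C_mul _

theorem mat_eq_one {w : Cf n m} {p : Fin n × Fin m} : mat w p = 1 ↔ w p.1 = some (some p.2) := by
  unfold mat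
  split_ifs with h <;> simp [h]

theorem mat_mem (w : Cf n m) (r : ℕ) (hv : Valid w) (hu : ∀ a, w a ≠ some none)
    (hr : r ≤ dd w) : mat w ∈ UZ n m r := by
  refine ⟨⟨?_, ?_, ?_⟩, ?_⟩
  · intro p
    unfold mat
    split_ifs
    · exact Or.inr rfl
    · exact Or.inl rfl
  · intro a j j' h h'
    rw [mat_eq_one] at h h'
    simp only at h h'
    rw [h] at h'
    simpa using h'
  · intro a a' j h h'
    rw [mat_eq_one] at h h'
    exact hv a a' j h h'
  · refine hr.trans ?_
    unfold dd
    have h1 : (Finset.univ.filter fun a => w a ≠ none) ⊆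
        (Finset.univ.filter fun p : Fin n × Fin m => mat w p = 1).image Prod.fst := by
      intro a ha
      rw [Finset.mem_filter] at ha
      rw [Finset.mem_image]
      have ha2 := ha.2
      have ha3 := hu a
      rcases hs : w a with _ | _ | j
      · exact absurd hs ha2
      · exact absurd hs ha3
      · exact ⟨(a, j), Finset.mem_filter.2 ⟨Finset.mem_univ _, mat_eq_one.2 hs⟩, rfl⟩
    exact (Finset.card_le_card h1).trans Finset.card_image_le

theorem alt_zero (N : Finset (Fin n)) (a0 : Fin n) (h : a0 ∈ N) (φ : Finset (Fin n) → ℂ)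
    (hφ : ∀ S, a0 ∉ S → φ (insert a0 S) = φ S) :
    ∑ S ∈ N.powerset, (-1 : ℂ) ^ S.card * φ S = 0 := by
  rw [← Finset.insert_erase h, Finset.sum_powerset_insert (Finset.notMem_erase a0 N),
    ← Finset.sum_add_distrib]
  refine Finset.sum_eq_zero (fun S hS => ?_)
  have hn : a0 ∉ S := fun h => (Finset.mem_erase.1 (Finset.mem_powerset.1 hS h)).1 rfl
  rw [hφ S hn, Finset.card_insert_of_notMem hn, pow_succ]
  ring

/-- toggled configuration -/
def tog (s1 s2 : Fin n → St m) (S : Finset (Fin n)) : Cf n m := fun a => if a ∈ S then s2 a else s1 a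

theorem alt_poly (N : Finset (Fin n)) (s1 s2 : Fin n → St m) (q : Poly n m)
    (hq : q.totalDegree < N.card) :
    ∑ S ∈ N.powerset, (-1 : ℂ) ^ S.card * MvPolynomial.eval (mat (tog s1 s2 S)) q = 0 := by
  simp_rw [MvPolynomial.eval_eq, Finset.mul_sum]
  rw [Finset.sum_comm]
  refine Finset.sum_eq_zero (fun d hd => ?_)
  have h1 : (d.support.image Prod.fst).card < N.card := by
    refine lt_of_le_of_lt (Finset.card_image_le.trans ?_) hq
    refine le_trans ?_ (MvPolynomial.le_totalDegree hd)
    rw [Finset.card_eq_sum_ones]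
    unfold Finsupp.sum
    exact Finset.sum_le_sum (fun p hp => Nat.one_le_iff_ne_zero.2 (Finsupp.mem_support_iff.1 hp))
  obtain ⟨a0, ha0, ha0'⟩ := Finset.exists_mem_notMem_of_card_lt_card h1
  have h2 := alt_zero N a0 ha0 (fun S => q.coeff d * ∏ p ∈ d.support, mat (tog s1 s2 S) p ^ d p) ?_
  · exact h2
  · intro S hS
    congr 1
    refine Finset.prod_congr rfl (fun p hp => ?_)
    have hne : p.1 ≠ a0 := by
      rintro rfl
      exact ha0' (Finset.mem_image_of_mem _ hp)
    have h3 : mat (tog s1 s2 (insert a0 S)) p = mat (tog s1 s2 S) p := by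
      unfold mat tog
      simp [Finset.mem_insert, hne]
    rw [h3]

theorem alt_prod (N : Finset (Fin n)) (f1 f2 : Fin n → ℂ) :
    ∑ S ∈ N.powerset, (-1 : ℂ) ^ S.card * ∏ a, (if a ∈ S then f2 a else f1 a) =
      (∏ a ∈ Nᶜ, f1 a) * ∏ a ∈ N, (f1 a - f2 a) := by
  have h1 : ∏ a ∈ N, (f1 a - f2 a) = ∏ a ∈ N, (- f2 a + f1 a) :=
    Finset.prod_congr rfl (fun a _ => by ring)
  rw [h1, Finset.prod_add, Finset.mul_sum]
  refine Finset.sum_congr rfl (fun S hS => ?_)
  have hS' := Finset.mem_powerset.1 hS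
  rw [← Finset.prod_mul_prod_compl N, ← Finset.prod_sdiff hS']
  have h2 : ∏ a ∈ N \ S, (if a ∈ S then f2 a else f1 a) = ∏ a ∈ N \ S, f1 a :=
    Finset.prod_congr rfl (fun a ha => if_neg (Finset.mem_sdiff.1 ha).2)
  have h3 : ∏ a ∈ S, (if a ∈ S then f2 a else f1 a) = ∏ a ∈ S, f2 a :=
    Finset.prod_congr rfl (fun a ha => if_pos ha)
  have h4 : ∏ a ∈ Nᶜ, (if a ∈ S then f2 a else f1 a) = ∏ a ∈ Nᶜ, f1 a :=
    Finset.prod_congr rfl (fun a ha => if_neg (fun h => Finset.mem_compl.1 ha (hS' h)))
  have h5 : ∏ a ∈ S, (- f2 a) = (-1 : ℂ) ^ S.card * ∏ a ∈ S, f2 a := by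
    rw [Finset.prod_neg]
  rw [h2, h3, h4, h5]
  ring

theorem exists_zz (A : Finset (Fin n)) (B : Finset (Fin m)) (h : A.card + B.card ≤ m) :
    ∃ zz : Fin n → Option (Fin m), (∀ a, a ∈ A ↔ zz a ≠ none) ∧
      (∀ a b j, zz a = some j → zz b = some j → a = b) ∧ ∀ a j, zz a = some j → j ∉ B := by
  have h1 : Fintype.card ↥A ≤ Fintype.card ↥(Bᶜ) := by
    rw [Fintype.card_coe, Fintype.card_coe, Finset.card_compl, Fintype.card_fin]
    omega
  obtain ⟨e⟩ := Function.Embedding.nonempty_of_card_le h1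
  refine ⟨fun a => if h : a ∈ A then some (e ⟨a, h⟩).1 else none, ?_, ?_, ?_⟩
  · intro a
    by_cases ha : a ∈ A <;> simp [ha]
  · intro a b j ha hb
    by_cases h1 : a ∈ A
    · by_cases h2 : b ∈ A
      · simp only [h1, h2, dif_pos, Option.some.injEq] at ha hb
        have h3 : e ⟨a, h1⟩ = e ⟨b, h2⟩ := Subtype.ext (ha.trans hb.symm)
        have h4 := e.injective h3
        simpa using h4
      · simp [h2] at hb
    · simp [h1] at ha
  · intro a j ha
    by_cases h1 : a ∈ A
    · simp only [h1, dif_pos, Option.some.injEq] at ha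
      rw [← ha]
      exact Finset.mem_compl.1 (e ⟨a, h1⟩).2
    · simp [h1] at ha

end Pool.RookLC.helper83
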