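import Pool.Agent.Work.MP_6f78fb_rk_helper83.THIa

/-! Block THI of MP_6f78fb_co: injectivity of `Th` on harmonic functions. -/

open scoped BigOperators TensorProduct
open Classical

noncomputable section

namespace Pool.RookLC.helper83

variable {n m : ℕ}

/-- the configuration with marks on `T` and the rooks `c` on `K` -/
def conf (K T : Finset (Fin n)) (c : ↥K → Fin m) : Cf n m :=
  fun a => if h : a ∈ K then some (some (c ⟨a, h⟩)) else if a ∈ T then some none else none

theorem conf_K (K T : Finset (Fin n)) (c : ↥K → Fin m) (u : ↥K) :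
    conf K T c u = some (some (c u)) := by
  unfold conf
  rw [dif_pos u.2]

theorem conf_T (K T : Finset (Fin n)) (c : ↥K → Fin m) {a : Fin n} (h : a ∉ K) (h' : a ∈ T) :
    conf K T c a = some none := by
  unfold conf
  rw [dif_neg h, if_pos h']

theorem conf_none (K T : Finset (Fin n)) (c : ↥K → Fin m) {a : Fin n} (h : a ∉ K) (h' : a ∉ T) :
    conf K T c a = none := by
  unfold conf
  rw [dif_neg h, if_neg h']

theorem conf_update (K T : Finset (Fin n)) (c : ↥K → Fin m) (u : ↥K) (y : Fin m) :
    conf K T (Function.update c u y) =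
      Function.update (conf K T c) (u : Fin n) (some (some y)) := by
  funext a
  by_cases ha : a = u
  · subst ha
    rw [conf_K, Function.update_self, Function.update_self]
  · rw [Function.update_of_ne ha]
    by_cases hK : a ∈ K
    · have h1 := conf_K K T (Function.update c u y) ⟨a, hK⟩
      have h2 := conf_K K T c ⟨a, hK⟩
      simp only at h1 h2
      rw [h1, h2, Function.update_of_ne]
      intro h
      exact ha (congrArg Subtype.val h)
    · by_cases hT : a ∈ T
      · rw [conf_T K T _ hK hT, conf_T K T _ hK hT]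
      · rw [conf_none K T _ hK hT, conf_none K T _ hK hT]

/-- the real rows -/
def reals (α : Cf n m) : Finset (Fin n) :=
  Finset.univ.filter fun a => ∃ j, α a = some (some j)

/-- the key identity: the alternating sum over the choices of columns vanishes -/
theorem thi_key (r i : ℕ) (g : Fn n m) (K T : Finset (Fin n)) (hKT : Disjoint K T)
    (hcard : K.card + T.card = i)
    (hg : ∀ α, g α ≠ 0 → dd α = i) (hmax : ∀ α, g α ≠ 0 → (reals α).card ≤ K.card)
    (q : Poly n m) (hq : q = 0 ∨ q.totalDegree < i) (hv : Th n m g + q ∈ vanI (UZ n m r))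
    (hrn : r + T.card ≤ n) (hrm : r + i ≤ m) (him : 2 * i ≤ m)
    (x y : ↥K → Fin m) (hxy : Function.Injective (Sum.elim x y))
    (c : Finset ↥K → ↥K → Fin m) (hc1 : ∀ ε u, u ∈ ε → c ε u = y u)
    (hc2 : ∀ ε u, u ∉ ε → c ε u = x u) :
    ∑ ε : Finset ↥K, (-1 : ℂ) ^ ε.card * g (conf K T (c ε)) = 0 := by
  have hx : Function.Injective x := fun u v h => by
    have := @hxy (Sum.inl u) (Sum.inl v) h
    simpa using this
  have hy : Function.Injective y := fun u v h => by
    have := @hxy (Sum.inr u) (Sum.inr v) h
    simpa using this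
  have hne : ∀ u v, x u ≠ y v := fun u v h => by
    have := @hxy (Sum.inl u) (Sum.inr v) h
    simp at this
  have hNcard : (K ∪ T).card = i := by
    rw [Finset.card_union_of_disjoint hKT, hcard]
  have hNn : i ≤ n := by
    have h1 := Finset.card_le_univ (K ∪ T)
    rw [Fintype.card_fin] at h1
    omega
  -- the rows
  obtain ⟨R, hR1, _, hR2⟩ := Finset.exists_subsuperset_card_eq (Finset.subset_univ (K ∪ T))
    (n := max r K.card + T.card) (by omega)
    (by rw [Finset.card_univ, Fintype.card_fin]; omega)
  have hRK : (R \ K).card + (Finset.univ.image x ∪ Finset.univ.image y).card ≤ m := by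
    have h1 : (R \ K).card = R.card - K.card :=
      Finset.card_sdiff_of_subset (Finset.subset_union_left.trans hR1)
    have h2 : (Finset.univ.image x ∪ Finset.univ.image y).card ≤ K.card + K.card := by
      refine (Finset.card_union_le _ _).trans (add_le_add ?_ ?_)
      · refine Finset.card_image_le.trans ?_
        rw [Finset.card_univ, Fintype.card_coe]
      · refine Finset.card_image_le.trans ?_
        rw [Finset.card_univ, Fintype.card_coe]
    omega
  obtain ⟨zz, hz1, hz2, hz3⟩ := exists_zz (R \ K) _ hRK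
  -- the states
  obtain ⟨s1, hs1K, hs1N⟩ : ∃ s1 : Fin n → St m, (∀ u : ↥K, s1 u = some (some (x u))) ∧
      ∀ a, a ∉ K → s1 a = (zz a).map some :=
    ⟨fun a => if h : a ∈ K then some (some (x ⟨a, h⟩)) else (zz a).map some,
      fun u => by simp, fun a ha => by simp [ha]⟩
  obtain ⟨s2, hs2K, hs2N⟩ : ∃ s2 : Fin n → St m, (∀ u : ↥K, s2 u = some (some (y u))) ∧
      ∀ a, a ∉ K → s2 a = none :=
    ⟨fun a => if h : a ∈ K then some (some (y ⟨a, h⟩)) else none,
      fun u => by simp, fun a ha => by simp [ha]⟩
  have hst : ∀ S a j, tog s1 s2 S a = some (some j) →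
      (∃ u : ↥K, (u : Fin n) = a ∧ (j = x u ∨ j = y u)) ∨ (a ∉ K ∧ zz a = some j) := by
    intro S a j h
    unfold tog at h
    by_cases hK : a ∈ K
    · refine Or.inl ⟨⟨a, hK⟩, rfl, ?_⟩
      have e1 := hs1K ⟨a, hK⟩
      have e2 := hs2K ⟨a, hK⟩
      simp only at e1 e2
      split_ifs at h
      · rw [e2] at h
        simp only [Option.some.injEq] at h
        exact Or.inr h.symm
      · rw [e1] at h
        simp only [Option.some.injEq] at h
        exact Or.inl h.symm
    · refine Or.inr ⟨hK, ?_⟩
      split_ifs at h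
      · rw [hs2N a hK] at h
        simp at h
      · rw [hs1N a hK] at h
        simpa using h
  have hvalid : ∀ S, Valid (tog s1 s2 S) := by
    intro S a b j ha hb
    rcases hst S a j ha with ⟨u, rfl, hu⟩ | ⟨haK, hza⟩
    · rcases hst S b j hb with ⟨v, rfl, hv⟩ | ⟨hbK, hzb⟩
      · rcases hu with hu | hu
        · rcases hv with hv | hv
          · rw [hx (hu.symm.trans hv)]
          · exact absurd (hu.symm.trans hv) (hne u v)
        · rcases hv with hv | hv
          · exact absurd (hv.symm.trans hu) (hne v u)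
          · rw [hy (hu.symm.trans hv)]
      · exfalso
        refine hz3 b j hzb ?_
        rw [Finset.mem_union, Finset.mem_image, Finset.mem_image]
        rcases hu with hu | hu
        · exact Or.inl ⟨u, Finset.mem_univ _, hu.symm⟩
        · exact Or.inr ⟨u, Finset.mem_univ _, hu.symm⟩
    · rcases hst S b j hb with ⟨v, rfl, hv⟩ | ⟨hbK, hzb⟩
      · exfalso
        refine hz3 a j hza ?_
        rw [Finset.mem_union, Finset.mem_image, Finset.mem_image]
        rcases hv with hv | hv
        · exact Or.inl ⟨v, Finset.mem_univ _, hv.symm⟩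
        · exact Or.inr ⟨v, Finset.mem_univ _, hv.symm⟩
      · exact hz2 a b j hza hzb
  have hunm : ∀ S a, tog s1 s2 S a ≠ some none := by
    intro S a h
    unfold tog at h
    by_cases hK : a ∈ K
    · have e1 := hs1K ⟨a, hK⟩
      have e2 := hs2K ⟨a, hK⟩
      simp only at e1 e2
      split_ifs at h
      · rw [e2] at h; simp at h
      · rw [e1] at h; simp at h
    · split_ifs at h
      · rw [hs2N a hK] at h; simp at h
      · rw [hs1N a hK] at h
        rcases hza : zz a with _ | j
        · rw [hza] at h; simp at h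
        · rw [hza] at h; simp at h
  have hdd : ∀ S ⊆ K ∪ T, r ≤ dd (tog s1 s2 S) := by
    intro S hS
    have h1 : R \ T ⊆ Finset.univ.filter fun a => tog s1 s2 S a ≠ none := by
      intro a ha
      rw [Finset.mem_sdiff] at ha
      rw [Finset.mem_filter]
      refine ⟨Finset.mem_univ _, ?_⟩
      unfold tog
      by_cases hK : a ∈ K
      · have e1 := hs1K ⟨a, hK⟩
        have e2 := hs2K ⟨a, hK⟩
        simp only at e1 e2
        split_ifs
        · rw [e2]; simp
        · rw [e1]; simp
      · have hS' : a ∉ S := by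
          intro h
          rcases Finset.mem_union.1 (hS h) with h | h
          · exact hK h
          · exact ha.2 h
        rw [if_neg hS', hs1N a hK]
        have h2 := (hz1 a).1 (Finset.mem_sdiff.2 ⟨ha.1, hK⟩)
        intro h3
        exact h2 (by simpa using h3)
    have h2 := Finset.card_le_card h1
    have h3 : (R \ T).card = R.card - T.card :=
      Finset.card_sdiff_of_subset (Finset.subset_union_right.trans hR1)
    unfold dd
    omega
  have hmem : ∀ S ∈ (K ∪ T).powerset, mat (tog s1 s2 S) ∈ UZ n m r := fun S hS =>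
    mat_mem _ r (hvalid S) (hunm S) (hdd S (Finset.mem_powerset.1 hS))
  -- the alternating sum
  have hsum : ∑ S ∈ (K ∪ T).powerset, (-1 : ℂ) ^ S.card *
      MvPolynomial.eval (mat (tog s1 s2 S)) (Th n m g) = 0 := by
    have h1 : ∀ S ∈ (K ∪ T).powerset, (-1 : ℂ) ^ S.card *
        MvPolynomial.eval (mat (tog s1 s2 S)) (Th n m g) =
        - ((-1 : ℂ) ^ S.card * MvPolynomial.eval (mat (tog s1 s2 S)) q) := by
      intro S hS
      have h2 := hv _ (hmem S hS)
      rw [map_add] at h2
      rw [eq_neg_of_add_eq_zero_left h2]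
      ring
    rw [Finset.sum_congr rfl h1, Finset.sum_neg_distrib, neg_eq_zero]
    rcases hq with rfl | hq
    · simp
    · exact alt_poly (K ∪ T) s1 s2 q (by rw [hNcard]; exact hq)
  -- the coefficient of `α`
  have hsum2 : ∑ α : Cf n m, g α * ((∏ a ∈ (K ∪ T)ᶜ, ev (α a) (s1 a)) *
      ∏ a ∈ K ∪ T, (ev (α a) (s1 a) - ev (α a) (s2 a))) = 0 := by
    rw [← hsum]
    have h1 : ∀ S ∈ (K ∪ T).powerset, (-1 : ℂ) ^ S.card *
        MvPolynomial.eval (mat (tog s1 s2 S)) (Th n m g) =
        ∑ α : Cf n m, g α * ((-1 : ℂ) ^ S.card *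
          ∏ a, (if a ∈ S then ev (α a) (s2 a) else ev (α a) (s1 a))) := by
      intro S _
      rw [eval_Th, Finset.mul_sum]
      refine Finset.sum_congr rfl (fun α _ => ?_)
      have h2 : ∏ a, ev (α a) (tog s1 s2 S a) =
          ∏ a, (if a ∈ S then ev (α a) (s2 a) else ev (α a) (s1 a)) := by
        refine Finset.prod_congr rfl (fun a _ => ?_)
        unfold tog
        split_ifs <;> rfl
      rw [h2]
      ring
    rw [Finset.sum_congr rfl h1, Finset.sum_comm]
    refine Finset.sum_congr rfl (fun α _ => ?_)
    rw [← Finset.mul_sum, alt_prod]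
  rw [← hsum2]
  refine Finset.sum_of_injOn (fun ε => conf K T (c ε)) ?_ ?_ ?_ ?_
  · intro ε _ ε' _ h
    ext u
    have h1 : conf K T (c ε) u = conf K T (c ε') u := congrFun h u
    rw [conf_K, conf_K] at h1
    simp only [Option.some.injEq] at h1
    constructor
    · intro hu
      by_contra hu'
      rw [hc1 ε u hu, hc2 ε' u hu'] at h1
      exact hne u u h1.symm
    · intro hu
      by_contra hu'
      rw [hc2 ε u hu', hc1 ε' u hu] at h1
      exact hne u u h1
  · intro ε _
    exact Finset.mem_coe.2 (Finset.mem_univ _)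
  · intro α _ hα
    by_contra hne0
    apply hα
    have hg0 : g α ≠ 0 := fun h => hne0 (by rw [h, zero_mul])
    have hp0 : ∏ a ∈ K ∪ T, (ev (α a) (s1 a) - ev (α a) (s2 a)) ≠ 0 :=
      fun h => hne0 (by rw [h, mul_zero, mul_zero])
    rw [Finset.prod_ne_zero_iff] at hp0
    have hnn : ∀ a ∈ K ∪ T, α a ≠ none := by
      intro a ha h
      apply hp0 a ha
      rw [h, ev_none, ev_none, sub_self]
    have hsupp : supp α = K ∪ T := by
      symm
      refine Finset.eq_of_subset_of_card_le ?_ ?_
      · intro a ha
        exact Finset.mem_filter.2 ⟨Finset.mem_univ _, hnn a ha⟩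
      · rw [hNcard, ← hg α hg0]
        exact le_rfl
    have hKr : ∀ u : ↥K, α u = some (some (x u)) ∨ α u = some (some (y u)) := by
      intro u
      have h1 := hp0 u (Finset.mem_union_left _ u.2)
      rw [hs1K, hs2K] at h1
      rcases hs : α u with _ | _ | j
      · exact absurd hs (hnn u (Finset.mem_union_left _ u.2))
      · rw [hs, ev_mark_rook, ev_mark_rook, sub_self] at h1
        exact absurd rfl h1
      · rw [hs, ev_rook, ev_rook] at h1
        by_cases hjx : x u = j
        · rw [hjx]; exact Or.inl rfl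
        · by_cases hjy : y u = j
          · rw [hjy]; exact Or.inr rfl
          · exfalso
            apply h1
            rw [if_neg, if_neg, sub_self]
            · intro h; simp only [Option.some.injEq] at h; exact hjy h
            · intro h; simp only [Option.some.injEq] at h; exact hjx h
    have hreal : reals α = K := by
      symm
      refine Finset.eq_of_subset_of_card_le ?_ (hmax α hg0)
      intro a ha
      refine Finset.mem_filter.2 ⟨Finset.mem_univ _, ?_⟩
      rcases hKr ⟨a, ha⟩ with h | h
      · exact ⟨_, h⟩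
      · exact ⟨_, h⟩
    refine ⟨Finset.univ.filter (fun u : ↥K => α u = some (some (y u))),
      Finset.mem_coe.2 (Finset.mem_univ _), ?_⟩
    simp only
    funext a
    by_cases haK : a ∈ K
    · have h1 := conf_K K T (c (Finset.univ.filter (fun u : ↥K => α u = some (some (y u)))))
        ⟨a, haK⟩
      simp only at h1
      rw [h1]
      by_cases hy' : α a = some (some (y ⟨a, haK⟩))
      · rw [hc1 _ _ (Finset.mem_filter.2 ⟨Finset.mem_univ _, hy'⟩), hy']
      · rw [hc2 _ _ (fun h => hy' (Finset.mem_filter.1 h).2)]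
        rcases hKr ⟨a, haK⟩ with h | h
        · exact h.symm
        · exact absurd h hy'
    · by_cases haT : a ∈ T
      · rw [conf_T K T _ haK haT]
        rcases hs : α a with _ | _ | j
        · exact absurd hs (hnn a (Finset.mem_union_right _ haT))
        · rfl
        · exfalso
          apply haK
          rw [← hreal]
          exact Finset.mem_filter.2 ⟨Finset.mem_univ _, ⟨j, hs⟩⟩
      · rw [conf_none K T _ haK haT]
        by_contra h
        have h2 : a ∈ supp α := Finset.mem_filter.2 ⟨Finset.mem_univ _, fun h' => h h'.symm⟩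
        rw [hsupp, Finset.mem_union] at h2
        exact h2.elim haK haT
  · intro ε _
    have h1 : ∏ a ∈ (K ∪ T)ᶜ, ev (conf K T (c ε) a) (s1 a) = 1 := by
      refine Finset.prod_eq_one (fun a ha => ?_)
      rw [Finset.mem_compl, Finset.mem_union, not_or] at ha
      rw [conf_none K T _ ha.1 ha.2, ev_none]
    have h2 : ∏ a ∈ T, (ev (conf K T (c ε) a) (s1 a) - ev (conf K T (c ε) a) (s2 a)) = 1 := by
      refine Finset.prod_eq_one (fun a ha => ?_)
      have haK : a ∉ K := fun h => Finset.disjoint_left.1 hKT h ha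
      rw [conf_T K T _ haK ha, hs1N a haK, hs2N a haK]
      have h3 := (hz1 a).1 (Finset.mem_sdiff.2 ⟨hR1 (Finset.mem_union_right _ ha), haK⟩)
      rcases hza : zz a with _ | j
      · exact absurd hza h3
      · rw [Option.map_some, ev_mark_rook, ev_mark_none, sub_zero]
    have h3 : ∏ a ∈ K, (ev (conf K T (c ε) a) (s1 a) - ev (conf K T (c ε) a) (s2 a)) =
        (-1 : ℂ) ^ ε.card := by
      rw [← Finset.prod_coe_sort]
      have h4 : ∀ u : ↥K, (ev (conf K T (c ε) u) (s1 u) - ev (conf K T (c ε) u) (s2 u)) =
          if u ∈ ε then (-1 : ℂ) else 1 := by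
        intro u
        rw [conf_K, hs1K, hs2K, ev_rook, ev_rook]
        by_cases hu : u ∈ ε
        · rw [hc1 ε u hu, if_neg (fun h => hne u u (by simpa using h)), if_pos rfl, if_pos hu]
          norm_num
        · rw [hc2 ε u hu, if_pos rfl, if_neg (fun h => hne u u (by simpa using h.symm)),
            if_neg hu]
          norm_num
      rw [Finset.prod_congr rfl (fun u _ => h4 u), Finset.prod_ite_mem, Finset.univ_inter,
        Finset.prod_const]
    rw [h1, Finset.prod_union hKT, h2, h3]
    ring

theorem stmt_THI (hRG : Stmt_RG) (hALT : Stmt_ALT) : Stmt_THI := by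
  intro n m r i hrn hrm him g hg hTh
  by_contra hg0
  obtain ⟨⟨hval, hpos, _⟩, hS⟩ := hg
  have hS' : ∀ α, g α ≠ 0 → dd α = i ∧ tt α ≤ n - r := hS
  obtain ⟨q, hq, hv⟩ := (hRG n m (UZ n m r) i (Th n m g)
    (Th_homog g i (fun α h => (hS' α h).1))).1 hTh
  obtain ⟨α1, hα1⟩ : ∃ α, g α ≠ 0 := by
    by_contra h
    push Not at h
    exact hg0 (funext h)
  obtain ⟨α0, h0mem, h0max⟩ := Finset.exists_max_image
    (Finset.univ.filter (fun α => g α ≠ 0)) (fun α => (reals α).card)
    ⟨α1, Finset.mem_filter.2 ⟨Finset.mem_univ _, hα1⟩⟩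
  have hα0 := (Finset.mem_filter.1 h0mem).2
  have hmax : ∀ α, g α ≠ 0 → (reals α).card ≤ (reals α0).card := fun α h =>
    h0max α (Finset.mem_filter.2 ⟨Finset.mem_univ _, h⟩)
  obtain ⟨K, hK⟩ : ∃ K, K = reals α0 := ⟨_, rfl⟩
  obtain ⟨T, hT⟩ : ∃ T : Finset (Fin n), T = Finset.univ.filter (fun a => α0 a = some none) :=
    ⟨_, rfl⟩
  have hKmem : ∀ a, a ∈ K ↔ ∃ j, α0 a = some (some j) := by
    intro a; rw [hK]; simp [reals]
  have hTmem : ∀ a, a ∈ T ↔ α0 a = some none := by
    intro a; rw [hT]; simp
  have hKT : Disjoint K T := by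
    rw [Finset.disjoint_left]
    intro a ha hb
    obtain ⟨j, hj⟩ := (hKmem a).1 ha
    rw [hTmem, hj] at hb
    simp at hb
  have hunion : supp α0 = K ∪ T := by
    ext a
    rw [Finset.mem_union, hKmem, hTmem]
    unfold supp
    rw [Finset.mem_filter]
    constructor
    · rintro ⟨_, h⟩
      rcases hs : α0 a with _ | _ | j
      · exact absurd hs h
      · exact Or.inr rfl
      · exact Or.inl ⟨j, rfl⟩
    · rintro (⟨j, hj⟩ | h)
      · rw [hj]; exact ⟨Finset.mem_univ _, by simp⟩
      · rw [h]; exact ⟨Finset.mem_univ _, by simp⟩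
  have hcard : K.card + T.card = i := by
    rw [← Finset.card_union_of_disjoint hKT, ← hunion]
    exact (hS' α0 hα0).1
  have hTn : T.card ≤ n - r := by
    rw [hT]; exact (hS' α0 hα0).2
  -- the columns of `α0`
  have hcol : ∀ u : ↥K, ∃ j, α0 u = some (some j) := fun u => (hKmem u).1 u.2
  choose x0 hx0 using hcol
  have hconf : conf K T x0 = α0 := by
    funext a
    by_cases haK : a ∈ K
    · have h1 := conf_K K T x0 ⟨a, haK⟩
      simp only at h1
      rw [h1]
      exact (hx0 ⟨a, haK⟩).symm
    · by_cases haT : a ∈ T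
      · rw [conf_T K T _ haK haT]; exact ((hTmem a).1 haT).symm
      · rw [conf_none K T _ haK haT]
        by_contra h
        have h2 : a ∈ supp α0 := Finset.mem_filter.2 ⟨Finset.mem_univ _, fun h' => h h'.symm⟩
        rw [hunion, Finset.mem_union] at h2
        exact h2.elim haK haT
  have hzero : (fun c : ↥K → Fin m => g (conf K T c)) = 0 := by
    refine hALT ↥K (Fin m) (fun c => g (conf K T c)) ?_ ?_ ?_ ?_
    · intro c hc u v huv
      have h1 := hval _ hc u v (c u) (conf_K K T c u) (by rw [conf_K, huv])
      exact Subtype.ext h1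
    · intro c u
      have h1 := hpos (conf K T c) u
      simp only [conf_update]
      exact h1
    · rw [Fintype.card_coe, Fintype.card_fin]
      omega
    · intro x y hxy
      refine thi_key r i g K T hKT hcard (fun α h => (hS' α h).1)
        (fun α h => by rw [hK]; exact hmax α h) q hq hv (by omega) hrm him x y hxy
        (fun ε u => if u ∈ ε then y u else x u) ?_ ?_
      · intro ε u h
        simp only [if_pos h]
      · intro ε u h
        simp only [if_neg h]
  have h1 := congrFun hzero x0
  simp only [hconf] at h1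
  exact hα0 h1

end Pool.RookLC.helper83
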